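import Pool.Agent.R974.BW.Defs

/-! # Project BW, piece CNS: two constants -/

set_option autoImplicit false
open MeasureTheory ProbabilityTheory Filter Topology Set
open scoped ENNReal NNReal

namespace Pool.Agent.R81.BW

open Pool.Agent.R974.BW Pool.Agent.R967.FB

theorem ent_one (y : ℝ) : ent 1 y = Real.sqrt (2 / Real.pi) * y * Real.exp (-y ^ 2 / 2) := by
  simp [ent]

theorem const_mul_sqrt : Real.sqrt (2 / Real.pi) * (Real.sqrt (Real.pi / (1 / 2)) / 2) = 1 := by
  have hp := Real.pi_pos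
  rw [← mul_div_assoc, ← Real.sqrt_mul (by positivity)]
  have : 2 / Real.pi * (Real.pi / (1 / 2)) = 2 ^ 2 := by field_simp
  rw [this, Real.sqrt_sq (by norm_num)]
  norm_num

theorem int0 : ∫⁻ y in Ioi (0 : ℝ), ENNReal.ofReal (Real.sqrt (2 / Real.pi) * Real.exp (-(1 / 2) * y ^ 2)) = 1 := by
  rw [← ofReal_integral_eq_lintegral_ofReal, integral_const_mul, integral_gaussian_Ioi,
    const_mul_sqrt, ENNReal.ofReal_one]
  · exact ((integrable_exp_neg_mul_sq (by norm_num)).const_mul _).integrableOn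
  · exact Eventually.of_forall fun y => by positivity

theorem int2 : ∫⁻ y in Ioi (0 : ℝ),
    ENNReal.ofReal (Real.sqrt (2 / Real.pi) * (y ^ (2 : ℝ) * Real.exp (-(1 / 2) * y ^ (2 : ℝ)))) = 1 := by
  have hI : IntegrableOn (fun y : ℝ => y ^ (2 : ℝ) * Real.exp (-(1 / 2) * y ^ (2 : ℝ))) (Ioi 0) := by
    have := integrableOn_rpow_mul_exp_neg_mul_sq (b := 1 / 2) (by norm_num) (s := 2) (by norm_num)
    refine this.congr_fun (fun y _ => ?_) measurableSet_Ioi
    simp only [Real.rpow_two]
  rw [← ofReal_integral_eq_lintegral_ofReal, integral_const_mul,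
    integral_rpow_mul_exp_neg_mul_rpow (by norm_num) (by norm_num) (by norm_num)]
  · have hG : Real.Gamma ((2 + 1) / 2) = Real.sqrt Real.pi / 2 := by
      have : ((2 : ℝ) + 1) / 2 = 1 / 2 + 1 := by norm_num
      rw [this, Real.Gamma_add_one (by norm_num), Real.Gamma_one_half_eq]
      ring
    have h2 : ((1 : ℝ) / 2) ^ (-((2 : ℝ) + 1) / 2) = 2 * Real.sqrt 2 := by
      rw [show (-((2 : ℝ) + 1) / 2) = -(3 / 2) by norm_num, one_div, Real.inv_rpow (by norm_num),
        Real.rpow_neg (by norm_num), inv_inv, show (3 : ℝ) / 2 = 1 + 1 / 2 by norm_num,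
        Real.rpow_add (by norm_num), Real.rpow_one, Real.sqrt_eq_rpow]
    rw [hG, h2]
    have h3 : Real.sqrt (2 / Real.pi) * (2 * Real.sqrt 2 * (1 / 2) * (Real.sqrt Real.pi / 2)) = 1 := by
      have hp := Real.pi_pos
      rw [Real.sqrt_div (by norm_num)]
      have h4 : Real.sqrt Real.pi ≠ 0 := (Real.sqrt_pos.2 hp).ne'
      field_simp
      exact Real.sq_sqrt (by norm_num)
    rw [h3, ENNReal.ofReal_one]
  · exact hI.const_mul _
  · refine (ae_restrict_mem measurableSet_Ioi).mono fun y hy => ?_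
    have : (0 : ℝ) < y := hy
    positivity

theorem t_CNS (h : S_BF) : S_CNS := by
  intro W hW
  have key : ∀ ψ : ℝ → ℝ≥0∞, Measurable ψ → ∫⁻ p, ψ (Rad p 1) ∂(W3 W) =
      ∫⁻ y in Ioi 0, ENNReal.ofReal (ent 1 y) * (ENNReal.ofReal y * ψ y) := by
    intro ψ hψ
    have := h W hW 1 (fun _ => 1) [] ψ one_pos measurable_const (by simp) hψ
    simpa [PP, NK, total] using this
  constructor
  · rw [key (fun r => ENNReal.ofReal (1 / r) * ENNReal.ofReal r) (by fun_prop), ← int2]
    refine setLIntegral_congr_fun measurableSet_Ioi fun y hy => ?_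
    have hy' : (0 : ℝ) < y := hy
    rw [← ENNReal.ofReal_mul (by positivity), ← ENNReal.ofReal_mul (by positivity),
      ← ENNReal.ofReal_mul (by rw [ent_one]; positivity), ent_one]
    congr 1
    rw [Real.rpow_two, show -y ^ 2 / 2 = -(1 / 2) * y ^ 2 by ring]
    field_simp
  · rw [key (fun r => ENNReal.ofReal (1 / r) * ENNReal.ofReal (1 / r)) (by fun_prop), ← int0]
    refine setLIntegral_congr_fun measurableSet_Ioi fun y hy => ?_
    have hy' : (0 : ℝ) < y := hy
    rw [← ENNReal.ofReal_mul (by positivity), ← ENNReal.ofReal_mul (by positivity),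
      ← ENNReal.ofReal_mul (by rw [ent_one]; positivity), ent_one]
    congr 1
    rw [show -y ^ 2 / 2 = -(1 / 2) * y ^ 2 by ring]
    field_simp

end Pool.Agent.R81.BW
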